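import Pool.Agent.H74.TSD.Targets

/-!
# Unit slabs from separating hyperplanes
-/

set_option autoImplicit false

open MeasureTheory Set Metric Filter
open scoped ENNReal Pointwise Topology

namespace Pool.Agent.H13.TSD

open Pool.Agent.H74.TSD Pool.Agent.H73.TS

theorem pf_SIN (h : T_W1) : T_SIN := by
  intro d N K T hK hcv hint hN hT t ht s hs hne
  have hKne : K.Nonempty := hint.mono interior_subset
  obtain ⟨hatt, hhom, -, hpos⟩ := h d K hK hKne
  obtain ⟨f, hfN, c, hf0, h1, h2, h3⟩ := hT t ht s hs hne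
  have hω : 0 < wdt K f := hpos hint f hf0
  obtain ⟨x₁, hx₁, x₀, hx₀, hw, hbd⟩ := hatt f
  have hω' : wdt K f ≠ 0 := ne_of_gt hω
  have hinv : (0 : ℝ) < (wdt K f)⁻¹ := inv_pos.2 hω
  refine ⟨(wdt K f)⁻¹ • f, hN f hfN _, ?_, (wdt K f)⁻¹ * (c - f x₁), ?_, ?_, ?_⟩
  · rw [hhom, abs_of_pos hinv, inv_mul_cancel₀ hω']
  · have h4 : f (t + x₁) ≤ c := h1 x₁ hx₁
    rw [map_add] at h4
    change (wdt K f)⁻¹ * f t ≤ _
    exact mul_le_mul_of_nonneg_left (by linarith) hinv.le
  · have h4 : c ≤ f (s + x₀) := h2 x₀ hx₀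
    rw [map_add] at h4
    change _ ≤ (wdt K f)⁻¹ * f s
    have h5 : (wdt K f)⁻¹ * (c - f x₁ + wdt K f) ≤ (wdt K f)⁻¹ * f s :=
      mul_le_mul_of_nonneg_left (by linarith) hinv.le
    rw [mul_add, inv_mul_cancel₀ hω'] at h5
    exact h5
  · intro u hu
    have hcl : K ⊆ closure (interior K) := by
      rw [hcv.closure_interior_eq_closure_of_nonempty_interior hint]
      exact subset_closure
    have hcont : Continuous fun z : E d => f (u + z) :=
      f.continuous.comp (continuous_const.add continuous_id)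
    have key : (∀ x ∈ K, f (u + x) ≤ c) ∨ (∀ x ∈ K, c ≤ f (u + x)) := by
      by_contra hcon
      push Not at hcon
      obtain ⟨⟨x, hx, hxc⟩, ⟨x', hx', hxc'⟩⟩ := hcon
      have hO1 : IsOpen {z : E d | c < f (u + z)} := isOpen_lt continuous_const hcont
      have hO2 : IsOpen {z : E d | f (u + z) < c} := isOpen_lt hcont continuous_const
      obtain ⟨y, hyO, hyI⟩ := mem_closure_iff.1 (hcl hx) _ hO1 hxc
      obtain ⟨y', hyO', hyI'⟩ := mem_closure_iff.1 (hcl hx') _ hO2 hxc'
      have hyc : c < f (u + y) := hyO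
      have hyc' : f (u + y') < c := hyO'
      rw [map_add] at hyc hyc'
      have hD : 0 < f y - f y' := by linarith
      set θ : ℝ := (c - f u - f y') / (f y - f y') with hθ
      have hθ0 : 0 ≤ θ := div_nonneg (by linarith) hD.le
      have hθ1 : θ ≤ 1 := by
        rw [hθ, div_le_one hD]
        linarith
      have hz : (1 - θ) • y' + θ • y ∈ interior K :=
        hcv.interior hyI' hyI (by linarith) hθ0 (by ring)
      have hz2 : u + ((1 - θ) • y' + θ • y) ∈ interior ((fun x => u + x) '' K) := by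
        have h6 := (Homeomorph.addLeft u).image_interior K
        have h7 : u + ((1 - θ) • y' + θ • y) ∈ (Homeomorph.addLeft u) '' interior K :=
          ⟨_, hz, rfl⟩
        rw [h6] at h7
        exact h7
      apply h3 u hu _ hz2
      rw [map_add, map_add, map_smul, map_smul, smul_eq_mul, smul_eq_mul]
      have h8 : θ * (f y - f y') = c - f u - f y' := by
        rw [hθ]
        exact div_mul_cancel₀ _ (ne_of_gt hD)
      linarith
    rcases key with hk | hk
    · left
      have h4 := hk x₁ hx₁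
      rw [map_add] at h4
      change (wdt K f)⁻¹ * f u ≤ _
      exact mul_le_mul_of_nonneg_left (by linarith) hinv.le
    · right
      have h4 := hk x₀ hx₀
      rw [map_add] at h4
      change _ ≤ (wdt K f)⁻¹ * f u
      have h5 : (wdt K f)⁻¹ * (c - f x₁ + wdt K f) ≤ (wdt K f)⁻¹ * f u :=
        mul_le_mul_of_nonneg_left (by linarith) hinv.le
      rw [mul_add, inv_mul_cancel₀ hω'] at h5
      exact h5

end Pool.Agent.H13.TSD
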